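import Pool.Agent.TH483.Rg.Split

/-!
# Few circulant diagonals have small treewidth
-/

open Finset

namespace Pool.Agent.TH483.Rg

open Pool.Agent.H468R2.Frag (HasTreeDec)

/-- A multiplier of large order which makes all elements of `D` small. -/
lemma exists_mult (n K : ℕ) [NeZero n] (hK : 1 ≤ K) (D : Finset (ZMod n))
    (hD : K ^ (D.card + 2) < n) :
    ∃ μ : ZMod n, K < addOrderOf μ ∧ ∀ t ∈ D, ∃ a b : ℕ, a ≤ b + n / K ∧ b ≤ a + n / K ∧
      μ * t = (a : ZMod n) - (b : ZMod n) := by
  classical
  have hn : 0 < n := Nat.pos_of_ne_zero (NeZero.ne n)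
  have hlt : ∀ x : ZMod n, K * x.val / n < K := by
    intro x
    rw [Nat.div_lt_iff_lt_mul hn]
    exact Nat.mul_lt_mul_of_pos_left (ZMod.val_lt x) (by omega)
  let f : ZMod n → (D → Fin K) := fun l t => ⟨K * (l * (t : ZMod n)).val / n, hlt _⟩
  obtain ⟨y, hy⟩ := Fintype.exists_lt_card_fiber_of_mul_lt_card f (n := K ^ 2) (by
    rw [Fintype.card_fun, Fintype.card_fin, Fintype.card_coe, ZMod.card, ← pow_add]
    exact hD)
  set Y := univ.filter (fun x => f x = y) with hY
  have hY0 : Y.Nonempty := by
    rw [← card_pos]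
    omega
  obtain ⟨l0, hl0⟩ := hY0
  set M := Y.image (fun l => l - l0) with hM
  have hMc : K ^ 2 < M.card := by
    rw [hM, card_image_of_injective _ (fun a b h => by simpa using h)]
    exact hy
  set B := (Icc 1 K).biUnion (fun q => univ.filter (fun μ : ZMod n => q • μ = 0)) with hB
  have hBc : B.card ≤ K ^ 2 := by
    calc B.card ≤ ∑ q ∈ Icc 1 K, (univ.filter (fun μ : ZMod n => q • μ = 0)).card :=
          card_biUnion_le
      _ ≤ ∑ q ∈ Icc 1 K, K := by
          apply sum_le_sum
          intro q hq
          rw [mem_Icc] at hq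
          exact (IsAddCyclic.card_nsmul_eq_zero_le (by omega)).trans hq.2
      _ = K ^ 2 := by
          rw [sum_const, Nat.card_Icc, smul_eq_mul]
          simp [pow_two]
  obtain ⟨μ, hμM, hμB⟩ : ∃ μ ∈ M, μ ∉ B := by
    by_contra hcon
    push Not at hcon
    have := card_le_card (show M ⊆ B from hcon)
    omega
  obtain ⟨l, hl, rfl⟩ := mem_image.mp hμM
  refine ⟨l - l0, ?_, ?_⟩
  · by_contra hcon
    apply hμB
    rw [hB, mem_biUnion]
    refine ⟨addOrderOf (l - l0), ?_, ?_⟩
    · rw [mem_Icc]
      exact ⟨addOrderOf_pos _, by omega⟩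
    · rw [mem_filter]
      exact ⟨mem_univ _, addOrderOf_nsmul_eq_zero _⟩
  · intro t ht
    have h1 : f l = y := (mem_filter.mp hl).2
    have h2 : f l0 = y := (mem_filter.mp hl0).2
    have h3 : K * (l * t).val / n = K * (l0 * t).val / n := by
      have := congrFun (h1.trans h2.symm) ⟨t, ht⟩
      exact congrArg Fin.val this
    have hnK : n < K * (n / K) + K := by
      have := Nat.div_add_mod n K
      have := Nat.mod_lt n (show 0 < K by omega)
      omega
    have hq : ∀ a b : ℕ, K * a / n = K * b / n → a ≤ b + n / K := by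
      intro a b hab
      by_contra hcon
      push Not at hcon
      have e1 : K * (b + n / K + 1) ≤ K * a := Nat.mul_le_mul_left K hcon
      have e2 : K * a < n * (K * a / n + 1) := Nat.lt_mul_div_succ _ hn
      have e3 : n * (K * b / n) ≤ K * b := Nat.mul_div_le _ _
      rw [hab] at e2
      nlinarith
    refine ⟨(l * t).val, (l0 * t).val, hq _ _ h3, hq _ _ h3.symm, ?_⟩
    simp only [ZMod.natCast_val, ZMod.cast_id', id]
    ring

/-- The number of elements with `μ x` in a window. -/
lemma window (n K : ℕ) [NeZero n] (μ : ZMod n) (hμ : K < addOrderOf μ) (hK : 1 ≤ K) (i : ℕ) :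
    (univ.filter (fun x : ZMod n => i ≤ (μ * x).val ∧ (μ * x).val ≤ i + n / K)).card ≤
      3 * (n / K) := by
  classical
  have hn : 0 < n := Nat.pos_of_ne_zero (NeZero.ne n)
  let f : ZMod n →+ ZMod n := AddMonoidHom.mulLeft μ
  have hf : ∀ x, f x = μ * x := fun x => rfl
  set g := Nat.card f.ker with hg
  set r := Nat.card f.range with hr
  have hgr : g * r = n := by
    have h1 := AddSubgroup.card_mul_index f.ker
    rw [AddSubgroup.index_ker, Nat.card_zmod] at h1
    exact h1
  have hr2 : K < r := by
    refine lt_of_lt_of_le hμ ?_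
    rw [← Nat.card_zmultiples, hr]
    apply Nat.card_mono (Set.toFinite _)
    intro y hy
    obtain ⟨z, rfl⟩ := AddSubgroup.mem_zmultiples_iff.mp hy
    refine ⟨(z : ZMod n), ?_⟩
    rw [hf, zsmul_eq_mul, mul_comm]
  have hg0 : 0 < g := Nat.card_pos
  have hgK : g ≤ n / K := by
    rw [Nat.le_div_iff_mul_le (by omega), ← hgr]
    exact Nat.mul_le_mul_left g hr2.le
  have hdvd : ∀ x : ZMod n, g ∣ (μ * x).val := by
    intro x
    have h1 : r • (μ * x) = 0 := by
      have h2 : (⟨μ * x, ⟨x, rfl⟩⟩ : f.range) ∈ (⊤ : AddSubgroup f.range) := trivial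
      have h3 : Nat.card f.range • (⟨μ * x, ⟨x, rfl⟩⟩ : f.range) = 0 := card_nsmul_eq_zero'
      have h4 := congrArg Subtype.val h3
      rw [AddSubgroup.coe_nsmul] at h4
      exact h4
    have h2 : (((r * (μ * x).val : ℕ)) : ZMod n) = 0 := by
      push_cast
      rw [ZMod.natCast_val, ZMod.cast_id']
      rw [nsmul_eq_mul] at h1
      exact h1
    rw [ZMod.natCast_eq_zero_iff] at h2
    generalize (μ * x).val = v at h2
    have h5 : r * g ∣ r * v := by
      rw [mul_comm r g, hgr]
      exact h2
    exact Nat.dvd_of_mul_dvd_mul_left (by omega) h5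
  -- fibres
  have hfib : ∀ y : ZMod n, (univ.filter (fun x : ZMod n => μ * x = y)).card ≤ g := by
    intro y
    by_cases hne : (univ.filter (fun x : ZMod n => μ * x = y)).Nonempty
    · obtain ⟨x0, hx0⟩ := hne
      have hx0' := (mem_filter.mp hx0).2
      have h1 : Set.InjOn (fun x => x - x0) (univ.filter (fun x : ZMod n => μ * x = y) :
          Set (ZMod n)) := fun a _ b _ h => by simpa using h
      have h2 : ((univ.filter (fun x : ZMod n => μ * x = y)).image (fun x => x - x0)).card =
          (univ.filter (fun x : ZMod n => μ * x = y)).card :=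
        card_image_of_injective _ (fun a b h => by simpa using h)
      have h3 : g = (univ.filter (fun x : ZMod n => μ * x = 0)).card :=
        Nat.subtype_card _ (fun x => by
          rw [mem_filter, AddMonoidHom.mem_ker, hf]
          exact ⟨fun h => h.2, fun h => ⟨mem_univ _, h⟩⟩)
      rw [← h2, h3]
      apply card_le_card
      intro z hz
      obtain ⟨x, hx, rfl⟩ := mem_image.mp hz
      rw [mem_filter]
      refine ⟨mem_univ _, ?_⟩
      rw [mul_sub, (mem_filter.mp hx).2, hx0', sub_self]
    · rw [not_nonempty_iff_eq_empty] at hne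
      rw [hne, card_empty]
      exact Nat.zero_le _
  -- values in the window
  set W := univ.filter (fun x : ZMod n => i ≤ (μ * x).val ∧ (μ * x).val ≤ i + n / K) with hW
  have h1 : (W.image (fun x => (μ * x).val / g)).card ≤ n / K / g + 2 := by
    have h2 : W.image (fun x => (μ * x).val / g) ⊆ Icc (i / g) (i / g + n / K / g + 1) := by
      intro z hz
      obtain ⟨x, hx, rfl⟩ := mem_image.mp hz
      obtain ⟨_, a, b⟩ := mem_filter.mp hx
      rw [mem_Icc]
      refine ⟨Nat.div_le_div_right a, ?_⟩
      have h3 : (μ * x).val / g ≤ (i + n / K) / g := Nat.div_le_div_right b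
      have h4 : (i + n / K) / g ≤ i / g + n / K / g + 1 := by
        have e1 := Nat.div_add_mod i g
        have e2 := Nat.div_add_mod (n / K) g
        have e3 := Nat.mod_lt i hg0
        have e4 := Nat.mod_lt (n / K) hg0
        rw [Nat.div_le_iff_le_mul_add_pred hg0]
        have : g * (i / g + n / K / g + 1) = g * (i / g) + g * (n / K / g) + g := by ring
        omega
      omega
    refine (card_le_card h2).trans ?_
    rw [Nat.card_Icc]
    generalize i / g = a
    generalize n / K / g = b
    omega
  have h2 : W.card ≤ g * (W.image (fun x => (μ * x).val / g)).card := by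
    apply card_le_mul_card_image
    intro z hz
    obtain ⟨x0, hx0, rfl⟩ := mem_image.mp hz
    refine le_trans (card_le_card ?_) (hfib (μ * x0))
    intro x hx
    obtain ⟨_, hx2⟩ := mem_filter.mp hx
    rw [mem_filter]
    refine ⟨mem_univ _, ?_⟩
    apply ZMod.val_injective
    rw [← Nat.mul_div_cancel' (hdvd x), ← Nat.mul_div_cancel' (hdvd x0), hx2]
  calc W.card ≤ g * (W.image (fun x => (μ * x).val / g)).card := h2
    _ ≤ g * (n / K / g + 2) := Nat.mul_le_mul_left _ h1
    _ = g * (n / K / g) + 2 * g := by ring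
    _ ≤ n / K + 2 * (n / K) := add_le_add (Nat.mul_div_le _ _) (Nat.mul_le_mul_left _ hgK)
    _ = 3 * (n / K) := by ring

end Pool.Agent.TH483.Rg
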