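import Mathlib

/-!
# Rectangles without marked entries

If every `s × s` subrectangle of an `m × m` rectangle contains a marked entry, there are many
marked entries.
-/

open Finset

namespace Pool.Agent.TH483.Rg

lemma desc_ratio (m d s : ℕ) (h : s + d ≤ m) (k : ℕ) (hk : k ≤ s) :
    (m.descFactorial k : ℝ) ≤
      ((m - d).descFactorial k : ℝ) * (1 + (d : ℝ) / ((m : ℝ) - d - s + 1)) ^ k := by
  have hq : (0 : ℝ) < (m : ℝ) - d - s + 1 := by
    have : ((s + d : ℕ) : ℝ) ≤ m := by exact_mod_cast h
    push_cast at this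
    linarith
  induction k with
  | zero => simp
  | succ k ih =>
    have ih' := ih (by omega)
    rw [Nat.descFactorial_succ, Nat.descFactorial_succ, pow_succ]
    push_cast
    rw [Nat.cast_sub (show k ≤ m by omega), Nat.cast_sub (show k ≤ m - d by omega),
      Nat.cast_sub (show d ≤ m by omega)]
    have h1 : ((m : ℝ) - k) ≤ ((m : ℝ) - d - k) * (1 + (d : ℝ) / ((m : ℝ) - d - s + 1)) := by
      have h2 : (d : ℝ) ≤ ((m : ℝ) - d - k) * ((d : ℝ) / ((m : ℝ) - d - s + 1)) := by
        rw [mul_div_assoc', le_div_iff₀ hq, mul_comm]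
        have h3 : (k : ℝ) + 1 ≤ s := by exact_mod_cast hk
        have h4 : (0 : ℝ) ≤ d := Nat.cast_nonneg d
        nlinarith
      nlinarith
    have h0 : (0 : ℝ) ≤ (m : ℝ) - k := by
      have : ((k : ℕ) : ℝ) ≤ m := by exact_mod_cast (show k ≤ m by omega)
      linarith
    calc ((m : ℝ) - k) * (m.descFactorial k : ℝ)
        ≤ (((m : ℝ) - d - k) * (1 + (d : ℝ) / ((m : ℝ) - d - s + 1))) *
          (((m - d).descFactorial k : ℝ) * (1 + (d : ℝ) / ((m : ℝ) - d - s + 1)) ^ k) :=
          mul_le_mul h1 ih' (Nat.cast_nonneg _) (h0.trans h1)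
      _ = _ := by ring

/-- Every `s × s` subrectangle is hit: then many entries are marked. -/
theorem hit_count {α β : Type} [DecidableEq α] [DecidableEq β] (R : Finset α) (C : Finset β)
    (T : α → β → Prop) [DecidableRel T] (m s : ℕ) (hR : R.card = m) (hC : C.card = m)
    (hs : 1 ≤ s) (h2 : 2 * s ≤ m)
    (hit : ∀ R' ⊆ R, ∀ C' ⊆ C, R'.card = s → C'.card = s → ∃ i ∈ R', ∃ j ∈ C', T i j) :
    (m : ℝ) * (m - s) * Real.log (m / (2 * s)) ≤
      4 * (s + Real.log (m / (2 * s))) *
        ((R ×ˢ C).filter (fun p => T p.1 p.2)).card := by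
  set τ := ((R ×ˢ C).filter (fun p => T p.1 p.2)).card with hτ
  set c : β → ℕ := fun j => (R.filter (fun i => T i j)).card with hc
  have hsum : ∑ j ∈ C, c j = τ := by
    rw [hτ, card_filter, sum_product_right]
    apply sum_congr rfl
    intro j _
    rw [hc]
    simp only [card_filter]
  have hm : 0 < m := by omega
  set d := 2 * τ / m with hd
  have hd1 : m * d ≤ 2 * τ := Nat.mul_div_le _ _
  have hd2 : 2 * τ < m * (d + 1) := Nat.lt_mul_div_succ _ hm
  set Λ := Real.log ((m : ℝ) / (2 * s)) with hΛ
  have hsR : (1 : ℝ) ≤ s := by exact_mod_cast hs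
  have h2R : 2 * (s : ℝ) ≤ m := by exact_mod_cast h2
  have hΛ0 : 0 ≤ Λ := by
    apply Real.log_nonneg
    rw [le_div_iff₀ (by linarith)]
    linarith
  have hd1R : (m : ℝ) * d ≤ 2 * τ := by exact_mod_cast hd1
  have hτ0 : (0 : ℝ) ≤ τ := Nat.cast_nonneg _
  have hmR : (0 : ℝ) < m := by exact_mod_cast hm
  by_cases hcase : m ≤ 2 * d + s
  · have h3 : (m : ℝ) - s ≤ 2 * d := by
      have : (m : ℝ) ≤ 2 * d + s := by exact_mod_cast hcase
      linarith
    have h4 : (m : ℝ) * (m - s) ≤ 4 * τ := by nlinarith
    have h5 := mul_le_mul_of_nonneg_right h4 hΛ0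
    nlinarith [mul_nonneg hτ0 (by linarith : (0 : ℝ) ≤ s)]
  · push Not at hcase
    -- the good columns
    set G := C.filter (fun j => c j ≤ d) with hG
    have hGc : m ≤ 2 * G.card := by
      have h3 : (C.filter (fun j => ¬ c j ≤ d)).card * (d + 1) ≤ τ := by
        rw [← hsum, ← smul_eq_mul]
        calc (C.filter (fun j => ¬ c j ≤ d)).card • (d + 1)
            ≤ ∑ j ∈ C.filter (fun j => ¬ c j ≤ d), c j := by
              apply card_nsmul_le_sum
              intro j hj
              have := (mem_filter.mp hj).2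
              omega
          _ ≤ ∑ j ∈ C, c j := sum_le_sum_of_subset (filter_subset _ _)
      have h4 := card_filter_add_card_filter_not (s := C) (fun j => c j ≤ d)
      have h5 : 2 * (C.filter (fun j => ¬ c j ≤ d)).card < m := by
        generalize (C.filter (fun j => ¬ c j ≤ d)).card = b at h3
        by_contra hcon
        have := Nat.mul_le_mul_right (d + 1) (not_lt.mp hcon)
        nlinarith
      rw [hG]
      omega
    -- free columns of an `s`-set of rows
    have hfree : ∀ R' ∈ powersetCard s R,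
        (G.filter (fun j => ∀ i ∈ R', ¬ T i j)).card ≤ s := by
      intro R' hR'
      rw [mem_powersetCard] at hR'
      by_contra hcon
      push Not at hcon
      obtain ⟨C', hC', hCc⟩ := exists_subset_card_eq hcon.le
      obtain ⟨i, hi, j, hj, hT⟩ := hit R' hR'.1 C'
        (hC'.trans ((filter_subset _ _).trans (filter_subset _ _))) hR'.2 hCc
      exact (mem_filter.mp (hC' hj)).2 i hi hT
    have hcol : ∀ j ∈ G, (m - d).choose s ≤
        ((powersetCard s R).filter (fun R' => ∀ i ∈ R', ¬ T i j)).card := by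
      intro j hj
      have hj2 := (mem_filter.mp hj).2
      have h3 : powersetCard s (R.filter (fun i => ¬ T i j)) ⊆
          (powersetCard s R).filter (fun R' => ∀ i ∈ R', ¬ T i j) := by
        intro R' hR'
        rw [mem_powersetCard] at hR'
        rw [mem_filter, mem_powersetCard]
        exact ⟨⟨hR'.1.trans (filter_subset _ _), hR'.2⟩,
          fun i hi => (mem_filter.mp (hR'.1 hi)).2⟩
      refine le_trans ?_ (card_le_card h3)
      rw [card_powersetCard]
      apply Nat.choose_le_choose
      have h4 := card_filter_add_card_filter_not (s := R) (fun i => T i j)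
      have h5 : c j = (R.filter (fun i => T i j)).card := rfl
      omega
    have hdouble : G.card * (m - d).choose s ≤ m.choose s * s := by
      calc G.card * (m - d).choose s
          = ∑ j ∈ G, (m - d).choose s := by rw [sum_const, smul_eq_mul]
        _ ≤ ∑ j ∈ G, ((powersetCard s R).filter (fun R' => ∀ i ∈ R', ¬ T i j)).card :=
            sum_le_sum hcol
        _ = ∑ R' ∈ powersetCard s R, (G.filter (fun j => ∀ i ∈ R', ¬ T i j)).card := by
            simp only [card_filter]
            exact sum_comm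
        _ ≤ ∑ R' ∈ powersetCard s R, s := sum_le_sum hfree
        _ = m.choose s * s := by rw [sum_const, smul_eq_mul, card_powersetCard, hR]
    have hpos : 0 < (m - d).choose s := Nat.choose_pos (by omega)
    have hratio : (m.choose s : ℝ) ≤
        ((m - d).choose s : ℝ) * (1 + (d : ℝ) / ((m : ℝ) - d - s + 1)) ^ s := by
      have h3 := desc_ratio m d s (by omega) s le_rfl
      rw [Nat.descFactorial_eq_factorial_mul_choose,
        Nat.descFactorial_eq_factorial_mul_choose] at h3
      push_cast at h3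
      rw [mul_assoc] at h3
      exact le_of_mul_le_mul_left h3 (by exact_mod_cast Nat.factorial_pos s)
    have hcR : 2 * (d : ℝ) + s < m := by exact_mod_cast hcase
    have hq : (0 : ℝ) < (m : ℝ) - d - s + 1 := by
      have : (0 : ℝ) ≤ d := Nat.cast_nonneg _
      linarith
    have h6 : (m : ℝ) / (2 * s) ≤ Real.exp (s * ((d : ℝ) / ((m : ℝ) - d - s + 1))) := by
      have h7 : (m : ℝ) / 2 * ((m - d).choose s : ℝ) ≤
          s * (((m - d).choose s : ℝ) * (1 + (d : ℝ) / ((m : ℝ) - d - s + 1)) ^ s) := by
        have h8 : (m : ℝ) ≤ 2 * G.card := by exact_mod_cast hGc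
        have h9 : (G.card : ℝ) * ((m - d).choose s : ℝ) ≤ (m.choose s : ℝ) * s := by
          exact_mod_cast hdouble
        have h10 : (0 : ℝ) < ((m - d).choose s : ℝ) := by exact_mod_cast hpos
        calc (m : ℝ) / 2 * ((m - d).choose s : ℝ)
            ≤ (G.card : ℝ) * ((m - d).choose s : ℝ) := by
              apply mul_le_mul_of_nonneg_right _ h10.le
              linarith
          _ ≤ (m.choose s : ℝ) * s := h9
          _ ≤ (((m - d).choose s : ℝ) * (1 + (d : ℝ) / ((m : ℝ) - d - s + 1)) ^ s) * s :=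
              mul_le_mul_of_nonneg_right hratio (by linarith)
          _ = _ := by ring
      have h10 : (0 : ℝ) < ((m - d).choose s : ℝ) := by exact_mod_cast hpos
      have h11 : (m : ℝ) / 2 ≤ s * (1 + (d : ℝ) / ((m : ℝ) - d - s + 1)) ^ s := by
        have : (m : ℝ) / 2 * ((m - d).choose s : ℝ) ≤
          (s * (1 + (d : ℝ) / ((m : ℝ) - d - s + 1)) ^ s) * ((m - d).choose s : ℝ) := by
          linarith
        exact le_of_mul_le_mul_right this h10
      have h12 : (1 + (d : ℝ) / ((m : ℝ) - d - s + 1)) ^ s ≤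
          Real.exp (s * ((d : ℝ) / ((m : ℝ) - d - s + 1))) := by
        rw [Real.exp_nat_mul]
        apply pow_le_pow_left₀ (by positivity)
        rw [add_comm]
        exact Real.add_one_le_exp _
      rw [div_le_iff₀ (by linarith)]
      nlinarith
    have h7 : Λ ≤ s * ((d : ℝ) / ((m : ℝ) - d - s + 1)) := by
      rw [hΛ, Real.log_le_iff_le_exp (by positivity)]
      exact h6
    have h8 : Λ * ((m : ℝ) - s) ≤ 2 * (s * d) := by
      have h9 : Λ * ((m : ℝ) - d - s + 1) ≤ s * d := by
        have := mul_le_mul_of_nonneg_right h7 hq.le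
        rwa [mul_assoc, div_mul_cancel₀ _ hq.ne'] at this
      have h10 : Λ * ((m : ℝ) - s) ≤ Λ * (2 * ((m : ℝ) - d - s + 1)) := by
        apply mul_le_mul_of_nonneg_left _ hΛ0
        linarith
      linarith
    have h9 : (m : ℝ) * (Λ * ((m : ℝ) - s)) ≤ 4 * (s * τ) := by
      have := mul_le_mul_of_nonneg_left h8 hmR.le
      have h10 : (m : ℝ) * (2 * (s * d)) = 2 * s * (m * d) := by ring
      have h11 : 2 * (s : ℝ) * (m * d) ≤ 2 * s * (2 * τ) :=
        mul_le_mul_of_nonneg_left hd1R (by linarith)
      linarith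
    nlinarith [mul_nonneg hΛ0 hτ0]

end Pool.Agent.TH483.Rg
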