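import Pool.Agent.TH483.Rg.Count
import Pool.Agent.H468R2.Frag.TreeSepW

/-!
# Large empty rectangles of bipartite graphs of small treewidth
-/

open Finset

namespace Pool.Agent.TH483.Rg

open Pool.Agent.H468R2.Frag (HasTreeDec treeDec_separator_weighted)

/-- One graph: an `m' × m'` subrectangle without edges. -/
theorem split_one {α β : Type} [Fintype α] [Fintype β] [DecidableEq α] [DecidableEq β]
    (adj : α ⊕ β → α ⊕ β → Prop) (w : ℕ) (h : HasTreeDec adj w)
    (R : Finset α) (C : Finset β) (m m' : ℕ) (hR : R.card = m) (hC : C.card = m)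
    (hm : 3 * (m' + w + 1) ≤ m) :
    ∃ R' ⊆ R, ∃ C' ⊆ C, R'.card = m' ∧ C'.card = m' ∧
      ∀ i ∈ R', ∀ j ∈ C', ¬ adj (.inl i) (.inr j) := by
  obtain ⟨S, side, hSA, hSc, hadj, hbal⟩ :=
    treeDec_separator_weighted adj w h (fun _ => 1) (R.disjSum C)
  -- rows and columns on the two sides
  let Rs : Bool → Finset α := fun c => R.filter (fun i => .inl i ∉ S ∧ side (.inl i) = c)
  let Cs : Bool → Finset β := fun c => C.filter (fun j => .inr j ∉ S ∧ side (.inr j) = c)
  have hsplitR : m ≤ (Rs true).card + (Rs false).card + (w + 1) := by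
    have h1 : R ⊆ (Rs true ∪ Rs false) ∪ R.filter (fun i => .inl i ∈ S) := by
      intro i hi
      simp only [Rs, mem_union, mem_filter]
      by_cases hS : Sum.inl i ∈ S
      · exact Or.inr ⟨hi, hS⟩
      · left
        cases hsd : side (Sum.inl i)
        · exact Or.inr ⟨hi, hS, rfl⟩
        · exact Or.inl ⟨hi, hS, rfl⟩
    have h2 : (R.filter (fun i => Sum.inl i ∈ S)).card ≤ w + 1 := by
      refine le_trans ?_ hSc
      refine card_le_card_of_injOn (fun i => Sum.inl i) ?_ ?_
      · intro i hi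
        exact (mem_filter.mp hi).2
      · intro a _ b _ hab
        exact Sum.inl_injective hab
    have h3 := card_le_card h1
    have h4 := card_union_le (Rs true ∪ Rs false) (R.filter (fun i => .inl i ∈ S))
    have h5 := card_union_le (Rs true) (Rs false)
    omega
  have hsplitC : m ≤ (Cs true).card + (Cs false).card + (w + 1) := by
    have h1 : C ⊆ (Cs true ∪ Cs false) ∪ C.filter (fun i => .inr i ∈ S) := by
      intro i hi
      simp only [Cs, mem_union, mem_filter]
      by_cases hS : Sum.inr i ∈ S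
      · exact Or.inr ⟨hi, hS⟩
      · left
        cases hsd : side (Sum.inr i)
        · exact Or.inr ⟨hi, hS, rfl⟩
        · exact Or.inl ⟨hi, hS, rfl⟩
    have h2 : (C.filter (fun i => Sum.inr i ∈ S)).card ≤ w + 1 := by
      refine le_trans ?_ hSc
      refine card_le_card_of_injOn (fun i => Sum.inr i) ?_ ?_
      · intro i hi
        exact (mem_filter.mp hi).2
      · intro a _ b _ hab
        exact Sum.inr_injective hab
    have h3 := card_le_card h1
    have h4 := card_union_le (Cs true ∪ Cs false) (C.filter (fun i => .inr i ∈ S))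
    have h5 := card_union_le (Cs true) (Cs false)
    omega
  have hside : ∀ c, 3 * ((Rs c).card + (Cs c).card) ≤ 4 * m := by
    intro c
    have h1 := hbal c
    simp only [sum_const, smul_eq_mul, mul_one] at h1
    rw [card_disjSum, hR, hC] at h1
    have h2 : (Rs c).disjSum (Cs c) ⊆
        (R.disjSum C).filter (fun v => v ∉ S ∧ side v = c) := by
      intro v hv
      rw [mem_disjSum] at hv
      rw [mem_filter, mem_disjSum]
      rcases hv with ⟨i, hi, rfl⟩ | ⟨j, hj, rfl⟩
      · obtain ⟨a, b⟩ := mem_filter.mp hi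
        exact ⟨Or.inl ⟨i, a, rfl⟩, b⟩
      · obtain ⟨a, b⟩ := mem_filter.mp hj
        exact ⟨Or.inr ⟨j, a, rfl⟩, b⟩
    have h3 := card_le_card h2
    rw [card_disjSum] at h3
    omega
  have hno : ∀ c, ∀ i ∈ Rs c, ∀ j ∈ Cs (!c), ¬ adj (.inl i) (.inr j) := by
    intro c i hi j hj hA
    obtain ⟨a1, a2, a3⟩ := mem_filter.mp hi
    obtain ⟨b1, b2, b3⟩ := mem_filter.mp hj
    have := hadj (.inl i) (.inr j) (by rw [mem_disjSum]; exact Or.inl ⟨i, a1, rfl⟩)
      (by rw [mem_disjSum]; exact Or.inr ⟨j, b1, rfl⟩) a2 b2 hA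
    rw [a3, b3] at this
    cases c <;> simp at this
  have h1 := hside true
  have h2 := hside false
  have hor : (m' ≤ (Rs true).card ∧ m' ≤ (Cs false).card) ∨
      (m' ≤ (Rs false).card ∧ m' ≤ (Cs true).card) := by omega
  rcases hor with ⟨ha, hb⟩ | ⟨ha, hb⟩
  · obtain ⟨R', hR', hRc⟩ := exists_subset_card_eq ha
    obtain ⟨C', hC', hCc⟩ := exists_subset_card_eq hb
    exact ⟨R', hR'.trans (filter_subset _ _), C', hC'.trans (filter_subset _ _), hRc, hCc,
      fun i hi j hj => hno true i (hR' hi) j (hC' hj)⟩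
  · obtain ⟨R', hR', hRc⟩ := exists_subset_card_eq ha
    obtain ⟨C', hC', hCc⟩ := exists_subset_card_eq hb
    exact ⟨R', hR'.trans (filter_subset _ _), C', hC'.trans (filter_subset _ _), hRc, hCc,
      fun i hi j hj => hno false i (hR' hi) j (hC' hj)⟩

/-- Several graphs: if `3 ^ k (2 m + 3 (w + 1)) ≤ 2 M + 3 (w + 1)`, every `M × M` rectangle
contains an `m × m` rectangle without edges of the `k` graphs. -/
theorem split_many {α β : Type} [Fintype α] [Fintype β] [DecidableEq α] [DecidableEq β]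
    (w m : ℕ) : ∀ (k : ℕ) (adj : Fin k → α ⊕ β → α ⊕ β → Prop)
    (_ : ∀ l, HasTreeDec (adj l) w) (R : Finset α) (C : Finset β) (M : ℕ) (_ : R.card = M)
    (_ : C.card = M) (_ : 3 ^ k * (2 * m + 3 * (w + 1)) ≤ 2 * M + 3 * (w + 1)),
    ∃ R' ⊆ R, ∃ C' ⊆ C, R'.card = m ∧ C'.card = m ∧
      ∀ l, ∀ i ∈ R', ∀ j ∈ C', ¬ adj l (.inl i) (.inr j) := by
  intro k
  induction k with
  | zero =>
    intro adj _ R C M hR hC hM
    have hmM : m ≤ M := by
      rw [pow_zero, one_mul] at hM
      omega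
    obtain ⟨R', hR', hRc⟩ := exists_subset_card_eq (hR.symm ▸ hmM)
    obtain ⟨C', hC', hCc⟩ := exists_subset_card_eq (hC.symm ▸ hmM)
    exact ⟨R', hR', C', hC', hRc, hCc, fun l => l.elim0⟩
  | succ k ih =>
    intro adj hadj R C M hR hC hM
    obtain ⟨q, hq⟩ : ∃ q, 3 ^ k = 2 * q + 1 :=
      ((by decide : Odd 3).pow : Odd (3 ^ k))
    -- the intermediate size
    have e1 : 3 ^ k * (2 * m + 3 * (w + 1)) =
        2 * (3 ^ k * m + 3 * (w + 1) * q) + 3 * (w + 1) := by
      rw [hq]; ring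
    set M' := 3 ^ k * m + 3 * (w + 1) * q with hM'
    obtain ⟨R1, hR1, C1, hC1, hRc, hCc, hn⟩ := split_one (adj 0) w (hadj 0) R C M M' hR hC (by
      rw [pow_succ, mul_comm (3 ^ k) 3, mul_assoc, e1] at hM
      omega)
    obtain ⟨R', hR', C', hC', hRc', hCc', hn'⟩ := ih (fun l => adj l.succ)
      (fun l => hadj l.succ) R1 C1 M' hRc hCc (by rw [e1])
    refine ⟨R', hR'.trans hR1, C', hC'.trans hC1, hRc', hCc', fun l => ?_⟩
    refine Fin.cases ?_ (fun l => ?_) l
    · exact fun i hi j hj => hn i (hR' hi) j (hC' hj)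
    · exact hn' l

end Pool.Agent.TH483.Rg
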