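import Pool.Agent.TH483.Rg.Circ

/-!
# A tree decomposition for few circulant diagonals
-/

open Finset

namespace Pool.Agent.TH483.Rg

open Pool.Agent.H468R2.Frag (HasTreeDec)

theorem circ_tree (n K : ℕ) [NeZero n] (hK : 1 ≤ K) (D : Finset (ZMod n))
    (hD : K ^ (D.card + 2) < n) (w : ℕ) (hw : 12 * (n / K) ≤ w + 1) :
    HasTreeDec (fun u v : Fin n ⊕ Fin n => ∃ i j : Fin n, u = .inl i ∧ v = .inr j ∧
      ∃ t ∈ D, ((j : ℕ) : ZMod n) = ((i : ℕ) : ZMod n) + t) w := by
  classical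
  have hn : 0 < n := Nat.pos_of_ne_zero (NeZero.ne n)
  obtain ⟨μ, hμ, hsmall⟩ := exists_mult n K hK D hD
  let pf : Fin n → ℕ := fun i => (μ * ((i : ℕ) : ZMod n)).val
  let pos : Fin n ⊕ Fin n → ℕ := Sum.elim pf pf
  have hposlt : ∀ v, pos v < n := by
    rintro (i | i)
    · exact ZMod.val_lt _
    · exact ZMod.val_lt _
  have hcast : Function.Injective (fun i : Fin n => ((i : ℕ) : ZMod n)) := by
    intro i j hij
    have h1 := congrArg ZMod.val hij
    simp only [ZMod.val_natCast] at h1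
    rw [Nat.mod_eq_of_lt i.2, Nat.mod_eq_of_lt j.2] at h1
    exact Fin.ext h1
  have hwin1 : ∀ a : ℕ, (univ.filter (fun i : Fin n => a ≤ pf i ∧ pf i ≤ a + n / K)).card ≤
      3 * (n / K) := by
    intro a
    refine le_trans ?_ (window n K μ hμ hK a)
    refine card_le_card_of_injOn (fun i : Fin n => ((i : ℕ) : ZMod n)) ?_ hcast.injOn
    intro i hi
    have := (mem_filter.mp hi).2
    exact mem_coe.mpr (mem_filter.mpr ⟨mem_univ _, this⟩)
  have hwin : ∀ a : ℕ, (univ.filter (fun v : Fin n ⊕ Fin n =>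
      a ≤ pos v ∧ pos v ≤ a + n / K)).card ≤ 6 * (n / K) := by
    intro a
    have h1 : univ.filter (fun v : Fin n ⊕ Fin n => a ≤ pos v ∧ pos v ≤ a + n / K) ⊆
        (univ.filter (fun i : Fin n => a ≤ pf i ∧ pf i ≤ a + n / K)).disjSum
          (univ.filter (fun i : Fin n => a ≤ pf i ∧ pf i ≤ a + n / K)) := by
      intro v hv
      have hv2 := (mem_filter.mp hv).2
      rw [mem_disjSum]
      rcases v with i | i
      · exact Or.inl ⟨i, mem_filter.mpr ⟨mem_univ _, hv2⟩, rfl⟩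
      · exact Or.inr ⟨i, mem_filter.mpr ⟨mem_univ _, hv2⟩, rfl⟩
    have h2 := card_le_card h1
    rw [card_disjSum] at h2
    have h3 := hwin1 a
    omega
  have e : n - 1 + 1 = n := by omega
  refine ⟨n - 1, fun i => ⟨(i : ℕ) - 1, by omega⟩, fun i => univ.filter (fun v =>
    ((i : ℕ) ≤ pos v ∧ pos v ≤ (i : ℕ) + n / K) ∨ pos v ≤ n / K), ?_, ?_, ?_, ?_⟩
  · intro i hi
    have hi' : 0 < (i : ℕ) := hi
    rw [Fin.lt_def]
    simp only
    omega
  · intro i
    have h1 : univ.filter (fun v =>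
        ((i : ℕ) ≤ pos v ∧ pos v ≤ (i : ℕ) + n / K) ∨ pos v ≤ n / K) ⊆
        univ.filter (fun v : Fin n ⊕ Fin n => (i : ℕ) ≤ pos v ∧ pos v ≤ (i : ℕ) + n / K) ∪
        univ.filter (fun v : Fin n ⊕ Fin n => 0 ≤ pos v ∧ pos v ≤ 0 + n / K) := by
      intro v hv
      have hv2 := (mem_filter.mp hv).2
      rw [mem_union, mem_filter, mem_filter]
      rcases hv2 with h | h
      · exact Or.inl ⟨mem_univ _, h⟩
      · exact Or.inr ⟨mem_univ _, Nat.zero_le _, by omega⟩
    refine (card_le_card h1).trans ?_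
    have h3 := card_union_le
      (univ.filter (fun v : Fin n ⊕ Fin n => (i : ℕ) ≤ pos v ∧ pos v ≤ (i : ℕ) + n / K))
      (univ.filter (fun v : Fin n ⊕ Fin n => 0 ≤ pos v ∧ pos v ≤ 0 + n / K))
    have h4 := hwin i
    have h5 := hwin 0
    omega
  · intro v
    have hp := hposlt v
    simp only [mem_filter, mem_univ, true_and]
    by_cases hsm : pos v ≤ n / K
    · refine ⟨0, ⟨Or.inr hsm, Or.inl rfl⟩, ?_⟩
      rintro i ⟨-, h | h⟩
      · exact h
      · exact absurd (Or.inr hsm) h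
    · refine ⟨⟨pos v - n / K, by omega⟩, ⟨Or.inl ⟨by simp only; omega, by simp only; omega⟩,
        Or.inr ?_⟩, ?_⟩
      · simp only
        omega
      · rintro i ⟨h1, h2⟩
        apply Fin.ext
        simp only
        rcases h2 with h2 | h2
        · have : (i : ℕ) = 0 := by rw [h2]; rfl
          omega
        · omega
  · rintro u v ⟨i, j, rfl, rfl, t, ht, hij⟩
    obtain ⟨a, b, hab, hba, hμt⟩ := hsmall t ht
    have hu := hposlt (.inl i)
    have hv := hposlt (.inr j)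
    have hcong : (((pos (.inr j) + b : ℕ)) : ZMod n) = ((pos (.inl i) + a : ℕ) : ZMod n) := by
      have h1 : ((pos (.inr j) : ℕ) : ZMod n) = μ * ((j : ℕ) : ZMod n) := by
        change (((μ * ((j : ℕ) : ZMod n)).val : ℕ) : ZMod n) = _
        simp only [ZMod.natCast_val, ZMod.cast_id', id]
      have h2 : ((pos (.inl i) : ℕ) : ZMod n) = μ * ((i : ℕ) : ZMod n) := by
        change (((μ * ((i : ℕ) : ZMod n)).val : ℕ) : ZMod n) = _
        simp only [ZMod.natCast_val, ZMod.cast_id', id]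
      rw [Nat.cast_add, Nat.cast_add, h1, h2, hij, mul_add, hμt]
      ring
    rw [ZMod.natCast_eq_natCast_iff] at hcong
    obtain ⟨c, hc⟩ := (Nat.modEq_iff_dvd.mp hcong)
    push_cast at hc
    have key : (pos (.inl i) ≤ pos (.inr j) ∧ pos (.inr j) ≤ pos (.inl i) + n / K) ∨
        (pos (.inr j) ≤ pos (.inl i) ∧ pos (.inl i) ≤ pos (.inr j) + n / K) ∨
        pos (.inl i) ≤ n / K ∨ pos (.inr j) ≤ n / K := by
      generalize pos (.inl i) = p at hc hu ⊢
      generalize pos (.inr j) = q at hc hv ⊢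
      generalize n / K = δ at hab hba ⊢
      have hnZ : (0 : ℤ) < n := by exact_mod_cast hn
      rcases lt_trichotomy c 0 with h | h | h
      · have h1 : (n : ℤ) * c ≤ -n := by nlinarith
        omega
      · rw [h, mul_zero] at hc
        omega
      · have h1 : (n : ℤ) ≤ n * c := by nlinarith
        omega
    simp only [mem_filter, mem_univ, true_and]
    rcases key with ⟨h1, h2⟩ | ⟨h1, h2⟩ | h | h
    · exact ⟨⟨pos (.inl i), by omega⟩, Or.inl ⟨le_rfl, Nat.le_add_right _ _⟩, Or.inl ⟨h1, h2⟩⟩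
    · exact ⟨⟨pos (.inr j), by omega⟩, Or.inl ⟨h1, h2⟩, Or.inl ⟨le_rfl, Nat.le_add_right _ _⟩⟩
    · exact ⟨⟨pos (.inr j), by omega⟩, Or.inr h, Or.inl ⟨le_rfl, Nat.le_add_right _ _⟩⟩
    · exact ⟨⟨pos (.inl i), by omega⟩, Or.inl ⟨le_rfl, Nat.le_add_right _ _⟩, Or.inr h⟩

end Pool.Agent.TH483.Rg
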